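import Mathlib
import Pool.Agent.Results.MP_fc4263_co.NoCheegerSubgraph

set_option autoImplicit false

namespace Pool.Agent.Results.MP_fc4263_co.CubicNoAnchored

open Classical
open Pool.Agent.Results.MP_fc4263_co.NoCheegerSubgraph

variable {F : ℕ → Block}

/-- the three moves of the construction lead to three different vertices -/
theorem sg_inj (f g : Fin 3) (v : V F) (h : sg f v = sg g v) : f = g := by
  obtain ⟨i, z, x⟩ := v
  have base : ∀ f g : Fin 3, (F i).s f x = (F i).s g x → f = g := by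
    intro f g h
    have := (F i).girth x [f] [g] (red_single f) (red_single g) (by simp) (by simp)
      (by simpa [run] using h)
    simpa using this
  have two : ∀ g : Fin 3, g ≠ 2 → sg 2 (⟨i, z, x⟩ : V F) ≠ sg g (⟨i, z, x⟩ : V F) := by
    intro g hg h
    rw [sg_ne hg] at h
    by_cases hp : (F i).port x
    · obtain ⟨u, y, h', -⟩ := cross i z x hp
      rw [h'] at h
      have := congrArg V.lev h
      simp at this
    · rw [sg_two, cS_not _ _ _ hp] at h
      cases i with
      | zero =>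
        have h3 : (⟨0, z, (F 0).s 2 x⟩ : V F) = ⟨0, z, (F 0).s g x⟩ := h
        simp at h3
        exact hg (base _ _ h3).symm
      | succ i =>
        simp only [dn] at h
        split_ifs at h
        · have := congrArg V.lev h
          simp at this
        · have := congrArg V.lev h
          simp at this
        · simp at h
          exact hg (base _ _ h).symm
  by_cases hf : f = 2
  · by_cases hg : g = 2
    · rw [hf, hg]
    · exact absurd (hf ▸ h) (two g hg)
  · by_cases hg : g = 2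
    · exact absurd (hg ▸ h).symm (two f hf)
    · rw [sg_ne hf, sg_ne hg] at h
      simp at h
      exact base _ _ h

theorem sgo_inj (v : OV F) (f g : Fin 3) (h : sgo f v = sgo g v) : f = g :=
  sg_inj f g v.1 (congrArg Subtype.val h)

theorem cubic (v : OV F) : ((GG F).neighborSet v).ncard = 3 := by
  have e : (GG F).neighborSet v = Set.range (fun f : Fin 3 => sgo f v) := by
    ext u
    constructor
    · rintro ⟨f, hf⟩
      exact ⟨f, hf⟩
    · rintro ⟨f, hf⟩
      exact ⟨f, hf⟩
  rw [e, ← Set.image_univ, Set.ncard_image_of_injective _ (fun f g h => sgo_inj v f g h),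
    Set.ncard_univ]
  simp

/-- the finite pieces of the construction: the piece contains the given vertex, and is connected -/
theorem core' (hk : ∀ i, i ≤ (F i).k) (H : (GG F).Subgraph) (x : OV F) (hx : x ∈ H.verts) (n : ℕ) :
    ∃ S E : Finset (OV F), x ∈ S ∧ (∀ v ∈ S, v ∈ H.verts) ∧
      (∀ Q : OV F → Prop, Q x → (∀ a b, a ∈ S → b ∈ S → H.Adj a b → Q a → Q b) → ∀ v ∈ S, Q v) ∧
      (∀ a ∈ S, ∀ b, b ∉ S → H.Adj a b → a ∈ E ∧ b = sgo 2 a) ∧ E.card * (n+1) ≤ S.card := by
  obtain ⟨m, hm1, hm2⟩ : ∃ m, x.1.lev < m ∧ n ≤ m := ⟨max (x.1.lev+1) n, by omega, by omega⟩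
  let HP : SimpleGraph (OV F) :=
    { Adj := fun a b => H.Adj a b ∧ a.1.lev ≤ m ∧ b.1.lev ≤ m
      symm := ⟨fun a b h => ⟨h.1.symm, h.2.2, h.2.1⟩⟩
      loopless := ⟨fun a h => (GG F).loopless.irrefl a (H.adj_sub h.1)⟩ }
  have hfin : {v | HP.Reachable x v}.Finite := by
    apply (levo_fin (F := F) m).subset
    intro v hv
    exact reach_ind (K := HP) (fun v => v.1.lev ≤ m) (fun a b h => h.2.2) hm1.le hv
  have hmem : ∀ v, v ∈ hfin.toFinset ↔ HP.Reachable x v := by
    intro v; rw [Set.Finite.mem_toFinset]; rfl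
  refine ⟨hfin.toFinset, hfin.toFinset.filter (fun v => v.1.lev = m ∧ (F v.1.lev).port v.1.x),
    (hmem x).2 (SimpleGraph.Reachable.refl x), ?_, ?_, ?_, ?_⟩
  · intro v hv
    exact reach_ind (K := HP) (fun v => v ∈ H.verts) (fun a b h => h.1.snd_mem) hx ((hmem v).1 hv)
  · intro Q hQx hQ v hv
    obtain ⟨p⟩ := (hmem v).1 hv
    have key : ∀ (a b : OV F) (q : HP.Walk a b), HP.Reachable x a → Q a → Q b := by
      intro a b q
      induction q with
      | nil => exact fun _ h => h
      | @cons a c b hac q ih =>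
        intro h1 h2
        have h3 : HP.Reachable x c := h1.trans hac.reachable
        exact ih h3 (hQ _ _ ((hmem _).2 h1) ((hmem _).2 h3) hac.1 h2)
    exact key x v p (SimpleGraph.Reachable.refl x) hQx
  · intro a ha b hb hab
    have hla : a.1.lev ≤ m :=
      reach_ind (K := HP) (fun v => v.1.lev ≤ m) (fun a b h => h.2.2) hm1.le ((hmem a).1 ha)
    have hlb : m < b.1.lev := by
      by_contra hcon
      apply hb
      rw [hmem]
      exact ((hmem a).1 ha).trans (SimpleGraph.Adj.reachable (⟨hab, hla, by omega⟩ : HP.Adj a b))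
    obtain ⟨h1, h2, h3⟩ := adj_lev (H.adj_sub hab) m hla hlb
    exact ⟨Finset.mem_filter.2 ⟨ha, h1, h2⟩, h3⟩
  · -- tubes
    have meet : ∀ u : OV F, HP.Reachable x u → u.1.lev = m → (F u.1.lev).port u.1.x →
        ∀ j, j ≤ m → ∃ v : OV F, HP.Reachable x v ∧ T j u.1 v.1 := by
      intro u hu hum hup j
      induction j with
      | zero => intro _; exact ⟨u, hu, [], rfl, red_single 2, rfl⟩
      | succ j ih =>
        intro hj
        obtain ⟨p⟩ := hu.symm
        have hxA : x ∉ {v : OV F | ∃ j' ≤ j, T j' u.1 v.1} := by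
          rintro ⟨j', _, w, _, _, h⟩
          have := congrArg V.lev h
          simp at this
          omega
        obtain ⟨d, hd, hd1, hd2⟩ := p.exists_boundary_dart {v : OV F | ∃ j' ≤ j, T j' u.1 v.1}
          ⟨0, Nat.zero_le _, [], rfl, red_single 2, rfl⟩ hxA
        have hr : HP.Reachable x d.snd := by
          have h1 : d.snd ∈ p.support := SimpleGraph.Walk.dart_snd_mem_support_of_mem_darts _ hd
          exact hu.trans ⟨p.takeUntil _ h1⟩
        refine ⟨d.snd, hr, ?_⟩
        have hadj : HP.Adj d.fst d.snd := d.adj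
        obtain ⟨f, hf⟩ := H.adj_sub hadj.1
        have hf1 : d.snd.1 = sg f d.fst.1 := (congrArg Subtype.val hf).symm
        rw [hf1]
        refine T_step f hup ?_ hd1 ?_ ?_
        · have := hk u.1.lev
          omega
        · rw [← hf1]; exact hd2
        · rw [← hf1, hum]; exact hadj.2.2
    choose g hg1 hg2 using meet
    have hcard : ((hfin.toFinset.filter (fun v => v.1.lev = m ∧ (F v.1.lev).port v.1.x)) ×ˢ
        Finset.range (n+1)).card ≤ hfin.toFinset.card := by
      apply Finset.card_le_card_of_injOn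
        (fun q => if h : HP.Reachable x q.1 ∧ q.1.1.lev = m ∧ (F q.1.1.lev).port q.1.1.x ∧ q.2 ≤ m
          then g q.1 h.1 h.2.1 h.2.2.1 q.2 h.2.2.2 else x)
      · rintro ⟨u, j⟩ hq
        rw [Finset.mem_coe, Finset.mem_product, Finset.mem_filter, Finset.mem_range] at hq
        have h : HP.Reachable x u ∧ u.1.lev = m ∧ (F u.1.lev).port u.1.x ∧ j ≤ m :=
          ⟨(hmem u).1 hq.1.1, hq.1.2.1, hq.1.2.2, by have := hq.2; simp only at this; omega⟩
        simp only [dif_pos h]
        rw [Finset.mem_coe, hmem]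
        exact hg1 _ _ _ _ _ _
      · rintro ⟨u, j⟩ hq ⟨u', j'⟩ hq' he
        rw [Finset.mem_coe, Finset.mem_product, Finset.mem_filter, Finset.mem_range] at hq hq'
        have h : HP.Reachable x u ∧ u.1.lev = m ∧ (F u.1.lev).port u.1.x ∧ j ≤ m :=
          ⟨(hmem u).1 hq.1.1, hq.1.2.1, hq.1.2.2, by have := hq.2; simp only at this; omega⟩
        have h' : HP.Reachable x u' ∧ u'.1.lev = m ∧ (F u'.1.lev).port u'.1.x ∧ j' ≤ m :=
          ⟨(hmem u').1 hq'.1.1, hq'.1.2.1, hq'.1.2.2, by have := hq'.2; simp only at this; omega⟩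
        simp only [dif_pos h, dif_pos h'] at he
        have t1 := hg2 u h.1 h.2.1 h.2.2.1 j h.2.2.2
        have t2 := hg2 u' h'.1 h'.2.1 h'.2.2.1 j' h'.2.2.2
        rw [← he] at t2
        have hkm := hk u.1.lev
        obtain ⟨a, b⟩ := T_inj h.2.2.1 h'.2.2.1 (by omega) (by omega) t1 t2
        rw [Prod.mk.injEq]
        exact ⟨Subtype.ext a, b⟩
    rwa [Finset.card_product, Finset.card_range] at hcard

/-- around every vertex `x` of the graph `H` there are finite connected sets `S` of at least `N`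
vertices, for every `N`, with `N |∂S| ≤ |S|`: the anchored expansion constant of `H` is zero,
at each vertex -/
def NoAnchoredExpansion {W : Type} (H : SimpleGraph W) : Prop :=
  ∀ (x : W) (N : ℕ), ∃ S : Finset W, x ∈ S ∧ N ≤ S.card ∧ (H.induce (S : Set W)).Connected ∧
    (edgeBoundary H (S : Set W)).Finite ∧ (edgeBoundary H (S : Set W)).ncard * N ≤ S.card

theorem anchored (hk : ∀ i, i ≤ (F i).k) (H : (GG F).Subgraph) (hH : H.verts.Infinite)
    (hc : H.Connected) : NoAnchoredExpansion H.coe := by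
  rintro ⟨x, hx⟩ N
  obtain ⟨S, E, hxS, hSH, hQ, hb, hcd⟩ := core' hk H x hx N
  let S' : Finset H.verts := S.subtype (fun v => v ∈ H.verts)
  have hS'c : S'.card = S.card := by
    rw [Finset.card_subtype, Finset.filter_true_of_mem hSH]
  let φ : OV F → Sym2 H.verts := fun a =>
    if h : a ∈ H.verts ∧ sgo 2 a ∈ H.verts then s(⟨a, h.1⟩, ⟨sgo 2 a, h.2⟩)
    else s(⟨x, hx⟩, ⟨x, hx⟩)
  have hsub : edgeBoundary H.coe (S' : Set H.verts) ⊆ φ '' (E : Set (OV F)) := by
    rintro e ⟨a, b, hab, ha, hnb, rfl⟩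
    have ha' : a.1 ∈ S := Finset.mem_subtype.1 ha
    have hb' : b.1 ∉ S := fun h => hnb (Finset.mem_subtype.2 h)
    obtain ⟨h1, h2⟩ := hb a.1 ha' b.1 hb' hab
    refine ⟨a.1, h1, ?_⟩
    have h3 : a.1 ∈ H.verts ∧ sgo 2 a.1 ∈ H.verts := ⟨a.2, h2 ▸ b.2⟩
    have hb2 : b = ⟨sgo 2 a.1, h3.2⟩ := Subtype.ext h2
    simp only [φ, dif_pos h3]
    rw [hb2]
  have hEf : (φ '' (E : Set (OV F))).Finite := (Finset.finite_toSet E).image φ
  have hcard : (edgeBoundary H.coe (S' : Set H.verts)).ncard ≤ E.card := by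
    refine (Set.ncard_le_ncard hsub hEf).trans ?_
    refine (Set.ncard_image_le (Finset.finite_toSet E)).trans ?_
    rw [Set.ncard_coe_finset]
  have hxS' : (⟨x, hx⟩ : H.verts) ∈ S' := Finset.mem_subtype.2 hxS
  have hE : 1 ≤ E.card := by
    obtain ⟨y, hy, hyS⟩ := hH.exists_notMem_finset S
    obtain ⟨p⟩ := hc.coe.preconnected ⟨x, hx⟩ ⟨y, hy⟩
    obtain ⟨d, hd, hd1, hd2⟩ := p.exists_boundary_dart {v : H.verts | v.1 ∈ S} hxS hyS
    have h1 : H.Adj d.fst.1 d.snd.1 := d.adj
    exact Finset.card_pos.2 ⟨_, (hb _ hd1 _ hd2 h1).1⟩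
  refine ⟨S', hxS', ?_, ?_, hEf.subset hsub, ?_⟩
  · rw [hS'c]
    nlinarith
  · have hne : Nonempty ↥(S' : Set H.verts) := ⟨⟨⟨x, hx⟩, hxS'⟩⟩
    have key : ∀ v ∈ S, ∃ (hv : v ∈ H.verts) (h : (⟨v, hv⟩ : H.verts) ∈ (S' : Set H.verts)),
        (H.coe.induce (S' : Set H.verts)).Reachable ⟨⟨x, hx⟩, hxS'⟩ ⟨⟨v, hv⟩, h⟩ := by
      apply hQ
      · exact ⟨hx, hxS', SimpleGraph.Reachable.refl _⟩
      · rintro a b ha hb' hab ⟨hav, ha', hr⟩
        have hbv : b ∈ H.verts := hSH b hb'
        have hbS : (⟨b, hbv⟩ : H.verts) ∈ (S' : Set H.verts) := Finset.mem_subtype.2 hb'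
        refine ⟨hbv, hbS, hr.trans (SimpleGraph.Adj.reachable ?_)⟩
        exact hab
    have key2 : ∀ w : ↥(S' : Set H.verts),
        (H.coe.induce (S' : Set H.verts)).Reachable ⟨⟨x, hx⟩, hxS'⟩ w := by
      rintro ⟨⟨v, hv⟩, h⟩
      obtain ⟨_, _, hr⟩ := key v (Finset.mem_subtype.1 h)
      exact hr
    exact ⟨fun a b => (key2 a).symm.trans (key2 b)⟩
  · rw [hS'c]
    calc _ ≤ E.card * N := Nat.mul_le_mul_right _ hcard
      _ ≤ E.card * (N+1) := Nat.mul_le_mul_left _ (Nat.le_succ N)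
      _ ≤ _ := hcd

theorem ball_nat (v : OV F) (n : ℕ) :
    ball (GG F) v (n : ℝ) = {u | (GG F).dist v u ≤ n} := by
  ext u
  constructor
  · rintro ⟨_, h⟩
    exact_mod_cast h
  · intro h
    refine ⟨GG_conn.preconnected v u, ?_⟩
    have h1 : (GG F).dist v u ≤ n := h
    exact_mod_cast h1

/-- There is a connected cubic graph, with a proper colouring of its edges by three colours,
all of whose balls have, up to constant factors, as many vertices as the balls of the cubic tree,
such that no infinite subgraph has a positive Cheeger constant, and no infinite connected subgraph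
has a positive anchored expansion constant. -/
theorem result : ∃ (V : Type) (G : SimpleGraph V) (m : Fin 3 → V → V),
    Infinite V ∧ G.Connected ∧
    (∀ f v, m f (m f v) = v) ∧ (∀ v w, G.Adj v w ↔ ∃ f, w = m f v) ∧
    (∀ v, (G.neighborSet v).ncard = 3) ∧
    (∀ (v : V) (n : ℕ), (ball G v n).Finite ∧
      (2 : ℝ) ^ n / 4 ≤ ((ball G v n).ncard : ℝ) ∧ ((ball G v n).ncard : ℝ) ≤ 3 * 2 ^ n) ∧
    UniformVolumeGrowth G ∧ ExponentialGrowth G ∧
    (∀ H : G.Subgraph, H.verts.Infinite → cheeger H.coe = 0) ∧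
    (∀ H : G.Subgraph, H.verts.Infinite → H.Connected → NoAnchoredExpansion H.coe) := by
  obtain ⟨F, hF, hk⟩ := fam_ex
  refine ⟨OV F, GG F, sgo, GG_inf hF, GG_conn, sgo_inv, ?_, cubic, ?_, GG_uniform hF, GG_exp hF,
    fun H hH => cheeger_zero hk H hH, fun H hH hc => anchored hk H hH hc⟩
  · intro v w
    constructor
    · rintro ⟨f, hf⟩
      exact ⟨f, hf.symm⟩
    · rintro ⟨f, hf⟩
      exact ⟨f, hf.symm⟩
  · intro v n
    rw [ball_nat]
    exact ⟨ball_fin (hinv := sgo_inv) (hne := sgo_ne) (GG_conn (F := F)) v n, lower_nat hF v n,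
      upper_nat v n⟩

end Pool.Agent.Results.MP_fc4263_co.CubicNoAnchored
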